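import Mathlib
import Pool.Agent.H.MP_e16db3_al.F

set_option autoImplicit false

namespace Pool.Agent.Results.MP_e16db3_al.Undecidable

open Pool.Agent.H.MP_e16db3_al

theorem result : ¬ ∃ f : ℕ × List (List ℕ × List (List (ℕ × Bool))) → Bool, Computable f ∧
    ∀ D, Valid D → (f D = true ↔ Contracting D) := main

end Pool.Agent.Results.MP_e16db3_al.Undecidable
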